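import Pool.Agent.W894.LIO.Ultra

/-!
The LIO conjecture fails.

Let `T(s, B, c, u)` be the truth definition for the relational formula with code `c` at the
assignment with code `u` in the initial segment `[0, s]` (all codes of assignments being at most
`B`). With a parameter `y ≥ 2 ^ a` it is a bounded formula for all arguments which are small powers
of `a`. Two cases are distinguished in the standard model.

1. For every finite set of bounded formulas `θ` there is an `a` such that the truth value of
`θ(a)` is the truth value of `T` at the entry with number `⌜θ⌝` of the sequence coded by `a`. Then,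
by an ultrapower, there is an `a` which works for all `θ` at once.

2. Otherwise there are `m` bounded formulas which give, for all `x₁, …, x_m`, a tuple of truth
values different from `(T(x₁), …, T(x_m))`. Then a boosting argument (multiplicative weights) shows
that, on `[0, Z]`, `T` is a weighted majority of `O(log Z)` predictors which are given by
parameters in `[0, Z]`. A parameter `2 ^ a` suffices to find such predictors with `Z = 2 ^ (r²)`
for a small root `r` of `a` and to check, by the recursion for `T`, that they are correct. This
evaluates all bounded formulas at `a`, as `2 ^ r` exceeds all standard powers of `a`.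
-/

set_option autoImplicit false

namespace Pool.Agent.Results.MP_eae0ed_lc.LIOFails

open Pool.Agent.Helper626 Pool.Agent.W894.LIO

/-- The LIO conjecture is false: for every injective coding of the `Δ₀` formulas `θ(x)` by natural
numbers there are a model `M` of `IΔ₀` (even a model of all sentences true in `ℕ`), an element `a`
of `M` and a `Δ₀` formula `Γ(x, y, z)` such that for every standard `n ≥ 1` the element
`b = 2 ^ (a ^ n)` exists in `M` and `M ⊨ Γ(a, b, ⌜θ⌝) ⇔ θ(a)` for all `Δ₀` formulas `θ(x)`.
That `b` is `2 ^ (a ^ n)` is expressed by: `M` satisfies `E(a ^ n, b)` for every formula `E(x, y)`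
which defines the relation `y = 2 ^ x` in `ℕ`. -/
theorem result : ∀ code : {θ : Fml false 1 // IsDelta0 θ} → ℕ, Function.Injective code →
    ∃ (M : Type) (_ : ArithOps M), PAminus M ∧ ISigma false 0 M ∧
      (∀ σ : Fml false 0, Sat σ (Fin.elim0 : Fin 0 → M) ↔ Sat σ (Fin.elim0 : Fin 0 → ℕ)) ∧
      ∃ (a : M) (Γ : Fml false 3), IsDelta0 Γ ∧ ∀ n : ℕ, 1 ≤ n → ∃ b : M,
        (∀ E : Fml false 2, (∀ x y : ℕ, Sat E ![x, y] ↔ y = 2 ^ x) → Sat E ![stdPow a n, b]) ∧
        ∀ θ : {θ : Fml false 1 // IsDelta0 θ},
          Sat Γ ![a, b, numeral (code θ)] ↔ Sat θ.1 ![a] :=
  fun code hcode => final code hcode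

end Pool.Agent.Results.MP_eae0ed_lc.LIOFails
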